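import Mathlib

/-!
# Mandatory vertices of permutation graphs form a monitoring edge-geodetic set

Full (positive) answer to Q1 of MP_8e9d7b_co: for every permutation graph the set of mandatory
vertices is an MEG set, hence its size is the MEG number.
-/

namespace Pool.Agent.Results.MP_8e9d7b_co.MandatoryPermutation

open SimpleGraph

/-- The pair `a, b` monitors the edge `e`: the two vertices are joined by a path and every
shortest walk from `a` to `b` contains `e` (shortest walks are the shortest paths). -/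
def Monitors {V : Type*} (G : SimpleGraph V) (a b : V) (e : Sym2 V) : Prop :=
  G.Reachable a b ∧ ∀ p : G.Walk a b, p.length = G.dist a b → e ∈ p.edges

/-- A monitoring edge-geodetic set: every edge is monitored by some pair of elements of `S`. -/
def IsMEG {V : Type*} (G : SimpleGraph V) (S : Set V) : Prop :=
  ∀ e ∈ G.edgeSet, ∃ a ∈ S, ∃ b ∈ S, Monitors G a b e

/-- The set of mandatory vertices: those lying in every MEG set. -/
def Man {V : Type*} (G : SimpleGraph V) : Set V :=
  {v | ∀ S : Set V, IsMEG G S → v ∈ S}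

/-- The minimum size of an MEG set. -/
noncomputable def meg {V : Type*} (G : SimpleGraph V) : ℕ :=
  sInf {k | ∃ S : Set V, IsMEG G S ∧ S.ncard = k}

/-- The inversion graph of a permutation of `Fin n`. -/
def permGraph {n : ℕ} (π : Equiv.Perm (Fin n)) : SimpleGraph (Fin n) where
  Adj i j := (i < j ∧ π j < π i) ∨ (j < i ∧ π i < π j)
  symm := ⟨fun _ _ h => h.elim Or.inr Or.inl⟩
  loopless := ⟨fun _ h => h.elim (fun h => lt_irrefl _ h.1) (fun h => lt_irrefl _ h.1)⟩

/-- Permutation graphs. -/
def IsPermutationGraph {V : Type*} (G : SimpleGraph V) : Prop :=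
  ∃ (n : ℕ) (π : Equiv.Perm (Fin n)), Nonempty (G ≃g permGraph π)

/-- Coordinates realising `G` as an incomparability-type graph of points of the plane. -/
structure Coord {V : Type*} (G : SimpleGraph V) (x y : V → ℤ) : Prop where
  hx : Function.Injective x
  hy : Function.Injective y
  hG : ∀ u v, G.Adj u v ↔ (x u < x v ∧ y v < y u) ∨ (x v < x u ∧ y u < y v)

theorem Coord.swap {V : Type*} {G : SimpleGraph V} {x y : V → ℤ} (h : Coord G x y) :
    Coord G y x where
  hx := h.hy
  hy := h.hx
  hG u v := by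
    rw [h.hG]
    constructor
    · rintro (⟨h1, h2⟩ | ⟨h1, h2⟩)
      · exact Or.inr ⟨h2, h1⟩
      · exact Or.inl ⟨h2, h1⟩
    · rintro (⟨h1, h2⟩ | ⟨h1, h2⟩)
      · exact Or.inr ⟨h2, h1⟩
      · exact Or.inl ⟨h2, h1⟩

theorem Coord.neg {V : Type*} {G : SimpleGraph V} {x y : V → ℤ} (h : Coord G x y) :
    Coord G (fun v => - x v) (fun v => - y v) where
  hx u v huv := h.hx (neg_injective huv)
  hy u v huv := h.hy (neg_injective huv)
  hG u v := by
    rw [h.hG]
    constructor
    · rintro (⟨h1, h2⟩ | ⟨h1, h2⟩)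
      · exact Or.inr ⟨by linarith, by linarith⟩
      · exact Or.inl ⟨by linarith, by linarith⟩
    · rintro (⟨h1, h2⟩ | ⟨h1, h2⟩)
      · exact Or.inr ⟨by linarith, by linarith⟩
      · exact Or.inl ⟨by linarith, by linarith⟩

/-- The local property of a non-mandatory vertex. -/
def Loc {V : Type*} (G : SimpleGraph V) (b : V) : Prop :=
  ∀ w, G.Adj w b → ∃ z, G.Adj b z ∧ z ≠ w ∧ ¬ G.Adj z w ∧ ∀ c, G.Adj c z → G.Adj c w → c = b

/-- The extension property. -/
def Ext {V : Type*} (G : SimpleGraph V) (a b : V) : Prop :=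
  ∃ z, G.Adj b z ∧ G.dist a z = G.dist a b + 1 ∧
    ∀ q, G.Adj q z → G.Reachable a q → G.dist a q ≤ G.dist a b → q = b

theorem pred {V : Type*} {G : SimpleGraph V} {a v : V} (h : G.Reachable a v) (hne : a ≠ v) :
    ∃ p, G.Adj p v ∧ G.Reachable a p ∧ G.dist a p + 1 = G.dist a v := by
  obtain ⟨w, hw⟩ := h.symm.exists_walk_length_eq_dist
  cases w with
  | nil => exact absurd rfl hne
  | cons hadj w' =>
    rename_i p
    refine ⟨p, hadj.symm, w'.reachable.symm, ?_⟩
    have h1 : G.dist a p ≤ w'.length := by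
      rw [SimpleGraph.dist_comm]; exact SimpleGraph.dist_le w'
    have h2 : w'.length + 1 = G.dist a v := by
      rw [SimpleGraph.dist_comm]; simpa using hw
    obtain ⟨w'', hw''⟩ := w'.reachable.symm.exists_walk_length_eq_dist
    have h3 : G.dist a v ≤ w''.length + 1 := by
      have := SimpleGraph.dist_le (w''.concat hadj.symm)
      simpa using this
    omega

theorem dist_step {V : Type*} {G : SimpleGraph V} {a u v : V} (h : G.Reachable a u)
    (hadj : G.Adj u v) : G.Reachable a v ∧ G.dist a v ≤ G.dist a u + 1 := by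
  obtain ⟨w, hw⟩ := h.exists_walk_length_eq_dist
  refine ⟨(w.concat hadj).reachable, ?_⟩
  have := SimpleGraph.dist_le (w.concat hadj)
  simp only [SimpleGraph.Walk.length_concat] at this
  omega

/-- vertices at distance at most `d - 2` from `a` are on the left of `b`. -/
theorem left_of {V : Type*} {G : SimpleGraph V} {x y : V → ℤ} (hC : Coord G x y) {a b : V}
    (hax : x a < x b) (hay : y a < y b) :
    ∀ n : ℕ, n + 2 ≤ G.dist a b → ∀ v, G.Reachable a v → G.dist a v = n →
      x v < x b ∧ y v < y b := by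
  intro n
  induction n with
  | zero =>
    intro _ v hv h0
    have : a = v := (hv.dist_eq_zero_iff).1 h0
    subst this
    exact ⟨hax, hay⟩
  | succ n ih =>
    intro hn v hv hvn
    have hne : a ≠ v := by
      rintro rfl
      simp at hvn
    obtain ⟨p, hp1, hp2, hp3⟩ := pred hv hne
    obtain ⟨hpx, hpy⟩ := ih (by omega) p hp2 (by omega)
    have hvb : v ≠ b := by
      rintro rfl
      omega
    have hnadj : ¬ G.Adj v b := by
      intro hadj
      have := (dist_step hv hadj).2
      omega
    rw [hC.hG] at hp1 hnadj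
    have hxn : x v ≠ x b := fun h => hvb (hC.hx h)
    have hyn : y v ≠ y b := fun h => hvb (hC.hy h)
    rcases lt_or_gt_of_ne hxn with h1 | h1 <;> rcases lt_or_gt_of_ne hyn with h2 | h2
    · exact ⟨h1, h2⟩
    · exact absurd (Or.inl ⟨h1, h2⟩) hnadj
    · exact absurd (Or.inr ⟨h1, h2⟩) hnadj
    · exfalso
      rcases hp1 with h3 | h3 <;> omega

theorem exists_max {V : Type*} [Finite V] (G : SimpleGraph V) (a : V) (k : ℕ) (f : V → ℤ) :
    ∃ t, G.Reachable a t ∧ G.dist a t ≤ k ∧
      ∀ v, G.Reachable a v → G.dist a v ≤ k → f v ≤ f t := by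
  obtain ⟨t, ht, hmax⟩ := Set.exists_max_image {v | G.Reachable a v ∧ G.dist a v ≤ k} f
    (Set.toFinite _) ⟨a, by simp⟩
  exact ⟨t, ht.1, ht.2, fun v h1 h2 => hmax v ⟨h1, h2⟩⟩

/-- Case: some vertex at distance `≤ d - 1` reaches beyond `b` in the first coordinate, none does
in the second coordinate. -/
theorem case1 {V : Type*} [Finite V] {G : SimpleGraph V} {x y : V → ℤ} (hC : Coord G x y)
    {a b : V} (hr : G.Reachable a b) (hd : 2 ≤ G.dist a b) (hax : x a < x b) (hay : y a < y b)
    (hL : Loc G b) {t' s' : V} (ht1 : G.Reachable a t') (ht2 : G.dist a t' + 1 ≤ G.dist a b)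
    (hs1 : G.Reachable a s') (hs2 : G.dist a s' + 1 ≤ G.dist a b)
    (ht3 : ∀ v, G.Reachable a v → G.dist a v + 1 ≤ G.dist a b → x v ≤ x t')
    (hs3 : ∀ v, G.Reachable a v → G.dist a v + 1 ≤ G.dist a b → y v ≤ y s')
    (hbt : x b < x t') (hbs : y s' < y b) : Ext G a b := by
  have hleft := left_of hC hax hay
  -- `s'` is to the left of `b` in the first coordinate
  have hs'b : x s' < x b := by
    by_cases h : G.dist a s' + 2 ≤ G.dist a b
    · exact (hleft _ h s' hs1 rfl).1
    · have hne : a ≠ s' := by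
        rintro rfl
        rw [SimpleGraph.dist_self] at h
        omega
      obtain ⟨p, hp1, hp2, hp3⟩ := pred hs1 hne
      have h4 := hs3 p hp2 (by omega)
      have h5 := (hleft _ (by omega) p hp2 rfl).1
      rw [hC.hG] at hp1
      rcases hp1 with h6 | h6 <;> omega
  obtain ⟨t, hta, htb, htc⟩ := exists_max G a (G.dist a b) x
  have htt' : x t' ≤ x t := htc t' ht1 (by omega)
  have hst : s' ≠ t := by
    rintro rfl
    omega
  have hyt : y t < y s' := by
    have : y t ≤ y s' := by
      by_cases h : G.dist a t + 1 ≤ G.dist a b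
      · exact hs3 t hta h
      · have hne : a ≠ t := by
          rintro rfl
          omega
        obtain ⟨p, hp1, hp2, hp3⟩ := pred hta hne
        have h4 := hs3 p hp2 (by omega)
        have h5 := ht3 p hp2 (by omega)
        rw [hC.hG] at hp1
        rcases hp1 with h6 | h6 <;> omega
    have h2 : y t ≠ y s' := fun h => hst (hC.hy h).symm
    omega
  have hadj_tb : G.Adj t b := by
    rw [hC.hG]
    exact Or.inr ⟨by omega, by omega⟩
  have hs't : G.Adj s' t := by
    rw [hC.hG]
    exact Or.inl ⟨by omega, by omega⟩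
  have hs'nb : s' ≠ b := by
    rintro rfl
    omega
  obtain ⟨z, hz1, hz2, hz3, hz4⟩ := hL t hadj_tb
  have hzs : ¬ G.Adj s' z := fun h => hs'nb (hz4 s' h hs't)
  have hxn : x z ≠ x t := fun h => hz2 (hC.hx h)
  have hyn : y z ≠ y t := fun h => hz2 (hC.hy h)
  have hz1' := hz1
  rw [hC.hG] at hz1' hz3 hzs
  -- `z` is to the right of `t`
  have hzt : x t < x z ∧ y t < y z := by
    rcases lt_or_gt_of_ne hxn with h1 | h1 <;> rcases lt_or_gt_of_ne hyn with h2 | h2
    · exfalso
      have h3 : x b < x z := by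
        rcases hz1' with h3 | h3 <;> omega
      exact hzs (Or.inl ⟨by omega, by omega⟩)
    · exact absurd (Or.inl ⟨h1, h2⟩) hz3
    · exact absurd (Or.inr ⟨h1, h2⟩) hz3
    · exact ⟨h1, h2⟩
  have hzs' : y s' < y z := by
    have h1 : y s' ≠ y z := by
      intro h
      have := hC.hy h
      subst this
      omega
    by_contra hcon
    exact hzs (Or.inl ⟨by omega, by omega⟩)
  have hzr := dist_step hr hz1
  refine ⟨z, hz1, ?_, ?_⟩
  · by_contra hcon
    have h1 : G.dist a z ≤ G.dist a b := by omega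
    have := htc z hzr.1 h1
    omega
  · intro q hq1 hq2 hq3
    have h1 := htc q hq2 hq3
    have hq1' := hq1
    rw [hC.hG] at hq1'
    have h2 : y z < y q := by
      rcases hq1' with h3 | h3 <;> omega
    have h3 : ¬ (G.dist a q + 1 ≤ G.dist a b) := by
      intro h
      have := hs3 q hq2 h
      omega
    have hne : a ≠ q := by
      rintro rfl
      rw [SimpleGraph.dist_self] at h3
      omega
    obtain ⟨p, hp1, hp2, hp3⟩ := pred hq2 hne
    have h4 := hs3 p hp2 (by omega)
    have h5 := ht3 p hp2 (by omega)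
    rw [hC.hG] at hp1
    have h6 : x q < x t := by
      rcases hp1 with h6 | h6 <;> omega
    refine hz4 q hq1 ?_
    rw [hC.hG]
    exact Or.inl ⟨h6, by omega⟩

/-- Case: both coordinates are exceeded. -/
theorem case3 {V : Type*} {G : SimpleGraph V} {x y : V → ℤ} (hC : Coord G x y)
    {a b : V} (hax : x a < x b) (hay : y a < y b) (hd : 2 ≤ G.dist a b)
    (hL : Loc G b) {t' s' : V} (ht1 : G.Reachable a t') (ht2 : G.dist a t' + 1 ≤ G.dist a b)
    (hs1 : G.Reachable a s') (hs2 : G.dist a s' + 1 ≤ G.dist a b)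
    (hbt : x b < x t') (hbs : y b < y s') : False := by
  have hleft := left_of hC hax hay
  -- predecessors
  have h1 : ¬ (G.dist a t' + 2 ≤ G.dist a b) := by
    intro h
    have := hleft _ h t' ht1 rfl
    omega
  have h2 : ¬ (G.dist a s' + 2 ≤ G.dist a b) := by
    intro h
    have := hleft _ h s' hs1 rfl
    omega
  have hne1 : a ≠ t' := by
    rintro rfl
    omega
  have hne2 : a ≠ s' := by
    rintro rfl
    omega
  obtain ⟨p, hp1, hp2, hp3⟩ := pred ht1 hne1
  obtain ⟨r, hr1, hr2, hr3⟩ := pred hs1 hne2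
  have hpb := hleft _ (by omega) p hp2 rfl
  have hrb := hleft _ (by omega) r hr2 rfl
  have hp1' := hp1
  rw [hC.hG] at hp1' hr1
  have hyt : y t' < y p := by
    rcases hp1' with h | h <;> omega
  have hxs : x s' < x r := by
    rcases hr1 with h | h <;> omega
  have hadj_tb : G.Adj t' b := by
    rw [hC.hG]
    exact Or.inr ⟨by omega, by omega⟩
  obtain ⟨z, hz1, hz2, hz3, hz4⟩ := hL t' hadj_tb
  have hs't : G.Adj s' t' := by
    rw [hC.hG]
    exact Or.inl ⟨by omega, by omega⟩
  have hs'nb : s' ≠ b := by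
    rintro rfl
    omega
  have hpnb : p ≠ b := by
    rintro rfl
    omega
  have hzs : ¬ G.Adj s' z := fun h => hs'nb (hz4 s' h hs't)
  have hzp : ¬ G.Adj p z := fun h => hpnb (hz4 p h hp1)
  have hxn : x z ≠ x t' := fun h => hz2 (hC.hx h)
  have hyn : y z ≠ y t' := fun h => hz2 (hC.hy h)
  rw [hC.hG] at hz1 hz3 hzs hzp
  rcases lt_or_gt_of_ne hxn with h3 | h3 <;> rcases lt_or_gt_of_ne hyn with h4 | h4
  · have h5 : x b < x z := by
      rcases hz1 with h | h <;> omega
    exact hzp (Or.inl ⟨by omega, by omega⟩)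
  · exact hz3 (Or.inl ⟨h3, h4⟩)
  · exact hz3 (Or.inr ⟨h3, h4⟩)
  · have h5 : y z < y b := by
      rcases hz1 with h | h <;> omega
    exact hzs (Or.inl ⟨by omega, by omega⟩)

/-- The extension lemma when `a` is on the left of `b`. -/
theorem ext_left {V : Type*} [Finite V] {G : SimpleGraph V} {x y : V → ℤ} (hC : Coord G x y)
    {a b : V} (hr : G.Reachable a b) (hd : 2 ≤ G.dist a b) (hax : x a < x b) (hay : y a < y b)
    (hL : Loc G b) : Ext G a b := by
  obtain ⟨t', ht1, ht2, ht3⟩ := exists_max G a (G.dist a b - 1) x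
  obtain ⟨s', hs1, hs2, hs3⟩ := exists_max G a (G.dist a b - 1) y
  have ht2' : G.dist a t' + 1 ≤ G.dist a b := by omega
  have hs2' : G.dist a s' + 1 ≤ G.dist a b := by omega
  have ht3' : ∀ v, G.Reachable a v → G.dist a v + 1 ≤ G.dist a b → x v ≤ x t' :=
    fun v h1 h2 => ht3 v h1 (by omega)
  have hs3' : ∀ v, G.Reachable a v → G.dist a v + 1 ≤ G.dist a b → y v ≤ y s' :=
    fun v h1 h2 => hs3 v h1 (by omega)
  have hnt : x t' ≠ x b := by
    intro h
    have := hC.hx h
    subst this
    omega
  have hns : y s' ≠ y b := by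
    intro h
    have := hC.hy h
    subst this
    omega
  rcases lt_or_gt_of_ne hnt with h1 | h1 <;> rcases lt_or_gt_of_ne hns with h2 | h2
  · exfalso
    have hne : a ≠ b := by
      rintro rfl
      omega
    obtain ⟨p, hp1, hp2, hp3⟩ := pred hr hne
    have h3 := ht3' p hp2 (by omega)
    have h4 := hs3' p hp2 (by omega)
    rw [hC.hG] at hp1
    rcases hp1 with h | h <;> omega
  · exact case1 hC.swap hr hd hay hax hL hs1 hs2' ht1 ht2' hs3' ht3' h2 h1
  · exact case1 hC hr hd hax hay hL ht1 ht2' hs1 hs2' ht3' hs3' h1 h2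
  · exact (case3 hC hax hay hd hL ht1 ht2' hs1 hs2' h1 h2).elim

/-- The extension lemma. -/
theorem ext_of_loc {V : Type*} [Finite V] {G : SimpleGraph V} {x y : V → ℤ} (hC : Coord G x y)
    {a b : V} (hr : G.Reachable a b) (hne : a ≠ b) (hL : Loc G b) : Ext G a b := by
  by_cases hadj : G.Adj a b
  · obtain ⟨z, hz1, hz2, hz3, hz4⟩ := hL a hadj
    have hd : G.dist a b = 1 := SimpleGraph.dist_eq_one_iff_adj.2 hadj
    have hzr := dist_step hr hz1
    refine ⟨z, hz1, ?_, ?_⟩
    · have h0 : G.dist a z ≠ 0 := fun h => hz2 ((hzr.1.dist_eq_zero_iff).1 h).symm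
      have h1 : G.dist a z ≠ 1 := fun h => hz3 (SimpleGraph.dist_eq_one_iff_adj.1 h).symm
      omega
    · intro q hq1 hq2 hq3
      have hqa : q ≠ a := by
        rintro rfl
        exact hz3 hq1.symm
      have h0 : G.dist a q ≠ 0 := fun h => hqa ((hq2.dist_eq_zero_iff).1 h).symm
      have h1 : G.dist a q = 1 := by omega
      exact hz4 q hq1 (SimpleGraph.dist_eq_one_iff_adj.1 h1).symm
  · have h0 : G.dist a b ≠ 0 := fun h => hne ((hr.dist_eq_zero_iff).1 h)
    have h1 : G.dist a b ≠ 1 := fun h => hadj (SimpleGraph.dist_eq_one_iff_adj.1 h)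
    have hd : 2 ≤ G.dist a b := by omega
    have hxn : x a ≠ x b := fun h => hne (hC.hx h)
    have hyn : y a ≠ y b := fun h => hne (hC.hy h)
    rw [hC.hG] at hadj
    rcases lt_or_gt_of_ne hxn with h3 | h3 <;> rcases lt_or_gt_of_ne hyn with h4 | h4
    · exact ext_left hC hr hd h3 h4 hL
    · exact absurd (Or.inl ⟨h3, h4⟩) hadj
    · exact absurd (Or.inr ⟨h3, h4⟩) hadj
    · exact ext_left hC.neg hr hd (by simpa using h3) (by simpa using h4) hL

theorem dist_of_mem {V : Type*} {G : SimpleGraph V} {u v b : V} (W : G.Walk u v)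
    (h : b ∈ W.support) : G.dist u b ≤ W.length ∧ G.dist b v ≤ W.length := by
  classical
  exact ⟨(SimpleGraph.dist_le (W.takeUntil b h)).trans (W.length_takeUntil_le_length h),
    (SimpleGraph.dist_le (W.dropUntil b h)).trans (W.length_dropUntil_le_length h)⟩

theorem edge_dist {V : Type*} {G : SimpleGraph V} {u v w b : V} (W : G.Walk u v)
    (h : s(w, b) ∈ W.edges) :
    (G.Reachable u w ∧ G.Reachable b v ∧ G.dist u w + 1 + G.dist b v ≤ W.length) ∨
    (G.Reachable u b ∧ G.Reachable w v ∧ G.dist u b + 1 + G.dist w v ≤ W.length) := by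
  induction W with
  | nil => simp at h
  | cons hadj W' ih =>
    rename_i u c v
    have hle := SimpleGraph.dist_le W'
    rw [SimpleGraph.Walk.edges_cons, List.mem_cons] at h
    rcases h with h | h
    · rw [Sym2.eq_iff] at h
      rcases h with ⟨rfl, rfl⟩ | ⟨rfl, rfl⟩
      · left
        refine ⟨SimpleGraph.Reachable.refl _, W'.reachable, ?_⟩
        rw [SimpleGraph.dist_self, SimpleGraph.Walk.length_cons]
        omega
      · right
        refine ⟨SimpleGraph.Reachable.refl _, W'.reachable, ?_⟩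
        rw [SimpleGraph.dist_self, SimpleGraph.Walk.length_cons]
        omega
    · rcases ih h with ⟨h1, h2, h3⟩ | ⟨h1, h2, h3⟩
      · left
        obtain ⟨h4, h5⟩ := dist_step h1.symm hadj.symm
        rw [SimpleGraph.dist_comm, SimpleGraph.dist_comm (v := c)] at h5
        refine ⟨h4.symm, h2, ?_⟩
        rw [SimpleGraph.Walk.length_cons]
        omega
      · right
        obtain ⟨h4, h5⟩ := dist_step h1.symm hadj.symm
        rw [SimpleGraph.dist_comm, SimpleGraph.dist_comm (v := c)] at h5
        refine ⟨h4.symm, h2, ?_⟩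
        rw [SimpleGraph.Walk.length_cons]
        omega

theorem loc_aux {V : Type*} {G : SimpleGraph V} {p q w b : V} (hmon : Monitors G p q s(w, b))
    (hwb : G.Adj w b) (hqb : q ≠ b) (h1 : G.Reachable p w) (h2 : G.Reachable b q)
    (h3 : G.dist p w + 1 + G.dist b q ≤ G.dist p q) :
    ∃ z, G.Adj b z ∧ z ≠ w ∧ ¬ G.Adj z w ∧ ∀ c, G.Adj c z → G.Adj c w → c = b := by
  obtain ⟨z, hz1, hz2, hz3⟩ := pred h2.symm hqb
  rw [SimpleGraph.dist_comm, SimpleGraph.dist_comm (v := b)] at hz3
  obtain ⟨A, hA⟩ := h1.exists_walk_length_eq_dist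
  obtain ⟨B, hB⟩ := hz2.symm.exists_walk_length_eq_dist
  have hbq : ∀ W : G.Walk p b, G.dist p q ≤ W.length + G.dist b q := by
    intro W
    obtain ⟨C, hC⟩ := h2.exists_walk_length_eq_dist
    have := SimpleGraph.dist_le (W.append C)
    rw [SimpleGraph.Walk.length_append] at this
    omega
  refine ⟨z, hz1.symm, ?_, ?_, ?_⟩
  · rintro rfl
    have := SimpleGraph.dist_le (A.append B)
    rw [SimpleGraph.Walk.length_append] at this
    omega
  · intro hadj
    have := SimpleGraph.dist_le (A.append (SimpleGraph.Walk.cons hadj.symm B))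
    rw [SimpleGraph.Walk.length_append, SimpleGraph.Walk.length_cons] at this
    omega
  · intro c hcz hcw
    by_contra hcb
    have hW := hmon.2 (A.append (SimpleGraph.Walk.cons hcw.symm (SimpleGraph.Walk.cons hcz B)))
    have hle := SimpleGraph.dist_le
      (A.append (SimpleGraph.Walk.cons hcw.symm (SimpleGraph.Walk.cons hcz B)))
    rw [SimpleGraph.Walk.length_append, SimpleGraph.Walk.length_cons,
      SimpleGraph.Walk.length_cons] at hW hle
    have hmem := hW (by omega)
    rw [SimpleGraph.Walk.edges_append, SimpleGraph.Walk.edges_cons, SimpleGraph.Walk.edges_cons,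
      List.mem_append, List.mem_cons, List.mem_cons] at hmem
    rcases hmem with h | h | h | h
    · have hb := A.snd_mem_support_of_mem_edges h
      classical
      have h4 := hbq (A.takeUntil b hb)
      have h5 := A.length_takeUntil_le_length hb
      omega
    · rw [Sym2.eq_iff] at h
      rcases h with ⟨_, h⟩ | ⟨h, _⟩
      · exact hcb h.symm
      · exact hcw.ne h.symm
    · rw [Sym2.eq_iff] at h
      rcases h with ⟨h, _⟩ | ⟨_, h⟩
      · exact hcw.ne h.symm
      · exact hcb h.symm
    · have hb := B.snd_mem_support_of_mem_edges h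
      have h4 := (dist_of_mem B hb).2
      omega

/-- A vertex avoided by some MEG set has the local property. -/
theorem loc_of_not_mem {V : Type*} {G : SimpleGraph V} {S : Set V} (hS : IsMEG G S) {b : V}
    (hb : b ∉ S) : Loc G b := by
  intro w hwb
  obtain ⟨p, hp, q, hq, hpq⟩ := hS s(w, b) hwb
  obtain ⟨W, hW⟩ := hpq.1.exists_walk_length_eq_dist
  have hmem := hpq.2 W hW
  have hpb : p ≠ b := fun h => hb (h ▸ hp)
  have hqb : q ≠ b := fun h => hb (h ▸ hq)
  rcases edge_dist W hmem with ⟨h1, h2, h3⟩ | ⟨h1, h2, h3⟩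
  · exact loc_aux hpq hwb hqb h1 h2 (by omega)
  · have hqp : Monitors G q p s(w, b) := by
      refine ⟨hpq.1.symm, fun r hr => ?_⟩
      have := hpq.2 r.reverse (by rw [SimpleGraph.Walk.length_reverse, hr, SimpleGraph.dist_comm])
      simpa using this
    refine loc_aux hqp hwb hpb h2.symm h1.symm ?_
    rw [SimpleGraph.dist_comm, SimpleGraph.dist_comm (u := b), SimpleGraph.dist_comm (u := q)]
    omega

/-- Extending a monitoring pair. -/
theorem extend {V : Type*} {G : SimpleGraph V} {a b : V} {e : Sym2 V} (hm : Monitors G a b e)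
    (hE : Ext G a b) : ∃ z, Monitors G a z e ∧ G.dist a z = G.dist a b + 1 := by
  obtain ⟨z, hz1, hz2, hz3⟩ := hE
  refine ⟨z, ⟨(dist_step hm.1 hz1).1, ?_⟩, hz2⟩
  intro p hp
  rw [hz2] at hp
  obtain ⟨P, rfl⟩ : ∃ P : G.Walk z a, p = P.reverse := ⟨p.reverse, by simp⟩
  cases P with
  | nil => simp at hp
  | cons hadj P' =>
    rename_i q
    simp only [SimpleGraph.Walk.length_reverse, SimpleGraph.Walk.length_cons] at hp
    have hq : q = b := by
      refine hz3 q hadj.symm P'.reachable.symm ?_
      rw [SimpleGraph.dist_comm]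
      have := SimpleGraph.dist_le P'
      omega
    subst hq
    have h1 := hm.2 P'.reverse (by simp; omega)
    simp only [SimpleGraph.Walk.edges_reverse, List.mem_reverse, SimpleGraph.Walk.edges_cons,
      List.mem_cons] at h1 ⊢
    exact Or.inr h1

theorem Monitors.symm {V : Type*} {G : SimpleGraph V} {a b : V} {e : Sym2 V}
    (h : Monitors G a b e) : Monitors G b a e := by
  refine ⟨h.1.symm, fun p hp => ?_⟩
  have := h.2 p.reverse (by rw [SimpleGraph.Walk.length_reverse, hp, SimpleGraph.dist_comm])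
  simpa using this

theorem Monitors.ne {V : Type*} {G : SimpleGraph V} {a b : V} {e : Sym2 V}
    (h : Monitors G a b e) : a ≠ b := by
  rintro rfl
  have := h.2 SimpleGraph.Walk.nil (by simp)
  simp at this

theorem monitors_self {V : Type*} {G : SimpleGraph V} {u v : V} (h : G.Adj u v) :
    Monitors G u v s(u, v) := by
  refine ⟨h.reachable, fun p hp => ?_⟩
  rw [SimpleGraph.dist_eq_one_iff_adj.2 h] at hp
  obtain ⟨h1, h2⟩ : ∃ h' : G.Adj u v, p = SimpleGraph.Walk.cons h' SimpleGraph.Walk.nil := by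
    cases p with
    | nil => simp at hp
    | cons h' q =>
      cases q with
      | nil => exact ⟨h', rfl⟩
      | cons _ _ => simp at hp
  rw [h2]
  simp

/-- The set of mandatory vertices of a graph with coordinates is an MEG set. -/
theorem man_isMEG {V : Type*} [Finite V] {G : SimpleGraph V} {x y : V → ℤ} (hC : Coord G x y) :
    IsMEG G (Man G) := by
  intro e he
  induction e with
  | _ u v =>
  have hadj : G.Adj u v := he
  -- a monitoring pair with maximal distance
  obtain ⟨⟨a, b⟩, hab, hmax⟩ := Set.exists_max_image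
    {p : V × V | Monitors G p.1 p.2 s(u, v)} (fun p => G.dist p.1 p.2)
    (Set.toFinite _) ⟨(u, v), monitors_self hadj⟩
  have key : ∀ a b : V, Monitors G a b s(u, v) →
      (∀ p : V × V, Monitors G p.1 p.2 s(u, v) → G.dist p.1 p.2 ≤ G.dist a b) → b ∈ Man G := by
    intro a b hab hmax
    by_contra hb
    simp only [Man, Set.mem_ofPred_eq, not_forall] at hb
    obtain ⟨S, hS, hbS⟩ := hb
    have hL := loc_of_not_mem hS hbS
    obtain ⟨z, hz1, hz2⟩ := extend hab (ext_of_loc hC hab.1 hab.ne hL)
    have := hmax (a, z) hz1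
    simp only at this
    omega
  refine ⟨a, ?_, b, ?_, hab⟩
  · refine key b a hab.symm ?_
    intro p hp
    rw [SimpleGraph.dist_comm (u := b)]
    exact hmax p hp
  · exact key a b hab (fun p hp => hmax p hp)

theorem coord_of_permutation {V : Type*} {G : SimpleGraph V} (h : IsPermutationGraph G) :
    ∃ x y : V → ℤ, Coord G x y := by
  obtain ⟨n, π, ⟨φ⟩⟩ := h
  refine ⟨fun v => ((φ v : Fin n) : ℕ), fun v => ((π (φ v) : Fin n) : ℕ), ?_, ?_, ?_⟩
  · intro u v huv
    exact φ.injective (Fin.ext (by simpa using huv))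
  · intro u v huv
    exact φ.injective (π.injective (Fin.ext (by simpa using huv)))
  · intro u v
    rw [← φ.map_rel_iff]
    simp only [permGraph, Fin.lt_def]
    norm_cast

/-- **MP_8e9d7b_co, Q1 (full answer).** For every permutation graph, the mandatory vertices form
an MEG set, and their number is the minimum size of an MEG set. -/
theorem result {V : Type*} [Finite V] (G : SimpleGraph V) (h : IsPermutationGraph G) :
    IsMEG G (Man G) ∧ (Man G).ncard = meg G := by
  obtain ⟨x, y, hC⟩ := coord_of_permutation h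
  have h1 := man_isMEG hC
  refine ⟨h1, le_antisymm ?_ ?_⟩
  · refine le_csInf ⟨_, Man G, h1, rfl⟩ ?_
    rintro k ⟨S, hS, rfl⟩
    exact Set.ncard_le_ncard (fun v hv => hv S hS) (Set.toFinite _)
  · exact Nat.sInf_le ⟨Man G, h1, rfl⟩

end Pool.Agent.Results.MP_8e9d7b_co.MandatoryPermutation
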